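import Pool.Agent.H46.RG.Ban
import Pool.Agent.H46.RG.Hil2

set_option autoImplicit false

/-!
# Randomized adaptive against deterministic non-adaptive algorithms: the inequalities for symmetric sets hold for all
# convex sets

Let `S` be a continuous linear operator and `F` a convex set, not necessarily symmetric. For a Hilbert space as target
the error of deterministic non-adaptive algorithms with `n` measurements is at most `170 √(n + 1)` times the error of
randomized adaptive algorithms with half as many measurements. For arbitrary targets the error of deterministic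
non-adaptive algorithms with `2 n - 1` measurements is at most `1540 n` times the geometric mean of the errors of
randomized adaptive algorithms with `0, ..., n - 1` measurements. The published inequalities for convex sets have the
factors `n` and `n ^ (3/2)`; the factors `√n` and `n` were known for symmetric convex sets only and are optimal. The
maximal rate gains are therefore at most `1 / 2` and `1`, and so equal to these numbers by the known examples.

Idea of the proof. If the deterministic error is larger than `c`, then there are `N = n + 1` pairs `f j`, `g j` of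
points of `F` such that the matrix of the `S (f j - g j)` in suitable functionals of norm one is triangular with
diagonal `c` (orthogonal of norm `c` for Hilbert spaces). One puts a Gaussian measure on the points
`∑ (f j + g j) / (2 N) + ∑ t j (f j - g j) / (2 N)`, `|t j| ≤ 1`. To stay in the cube costs an exponentially small
probability `q ^ N`, and this is compared with the still smaller probability that an adaptive algorithm localises the
Gaussian vector in a small ball. For arbitrary targets this is done on the span of the first `m` singular vectors, for
every `m ≤ N`, in a suitable translate of the section of a cube of size `√(2 log (16 N / m))`. The product over `m` of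
these sizes is at most `(11 / 4) ^ N`, so that no logarithm appears in the product of the lower bounds.
-/

namespace Pool.Agent.Results.MP_83e7a5_an.SharpComparison

open Pool.Agent.Helper579 Pool.Agent.Helper579.IBC
open scoped ENNReal

/-- `detNonErr 𝕜 S F n` is the minimal error of deterministic non-adaptive algorithms with `n` measurements,
`ranErr 𝕜 S F n` the minimal error of randomized adaptive algorithms, `gammaB` and `gammaH` are the maximal rate gains
for Banach and for Hilbert spaces as targets (definitions of the library file `IBCDefs`). -/
theorem result :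
    (∀ (X Y : Type) [NormedAddCommGroup X] [NormedSpace ℝ X] [NormedAddCommGroup Y] [NormedSpace ℝ Y]
      (S : X →L[ℝ] Y) (F : Set X), Convex ℝ F → ∀ n : ℕ, 1 ≤ n →
      detNonErr ℝ S F (2 * n - 1) ≤
        ENNReal.ofReal (1540 * n) * (∏ k ∈ Finset.range n, ranErr ℝ S F k) ^ ((n : ℝ)⁻¹)) ∧
    (∀ (X Y : Type) [NormedAddCommGroup X] [NormedSpace ℂ X] [NormedAddCommGroup Y] [NormedSpace ℂ Y]
      (S : X →L[ℂ] Y) (F : Set X), Convex ℝ F → ∀ n : ℕ, 1 ≤ n →
      detNonErr ℂ S F (4 * n - 1) ≤
        ENNReal.ofReal (3080 * n) * (∏ k ∈ Finset.range n, ranErr ℂ S F k) ^ ((n : ℝ)⁻¹)) ∧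
    (∀ (X Y : Type) [NormedAddCommGroup X] [NormedSpace ℝ X] [NormedAddCommGroup Y] [InnerProductSpace ℝ Y]
      (S : X →L[ℝ] Y) (F : Set X), Convex ℝ F → ∀ n : ℕ,
      detNonErr ℝ S F n ≤ ENNReal.ofReal (170 * Real.sqrt (n + 1)) * ranErr ℝ S F ((n + 1) / 2)) ∧
    (∀ (X Y : Type) [NormedAddCommGroup X] [NormedSpace ℂ X] [NormedAddCommGroup Y] [InnerProductSpace ℂ Y]
      (S : X →L[ℂ] Y) (F : Set X), Convex ℝ F → ∀ n : ℕ,
      detNonErr ℂ S F n ≤ ENNReal.ofReal (170 * Real.sqrt (n + 1)) * ranErr ℂ S F ((n + 1) / 4)) ∧
    gammaB ≤ 1 ∧ gammaH ≤ ((1 / 2 : ℝ) : EReal) := by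
  refine ⟨?_, ?_, ?_, ?_, Rates.gammaB_le, Rates.gammaH_le⟩
  · intro X Y _ _ _ _ S F hF n hn
    have h := Pool.Agent.H46.RG.banach_compare RanLower.enc_real le_rfl S hF n hn
    simpa using h
  · intro X Y _ _ _ _ S F hF n hn
    have h := Pool.Agent.H46.RG.banach_compare (RanLower.enc_two ℂ) (by norm_num) S hF n hn
    have e1 : 2 * 2 * n - 1 = 4 * n - 1 := by ring_nf
    have e2 : (1540 : ℝ) * ((2 : ℕ) : ℝ) * n = 3080 * n := by push_cast; ring
    rw [e1, e2] at h
    exact h
  · intro X Y _ _ _ _ S F hF n
    have h := Pool.Agent.H46.RG.hilbert_compare RanLower.enc_real S hF n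
    simpa using h
  · intro X Y _ _ _ _ S F hF n
    exact Pool.Agent.H46.RG.hilbert_compare (RanLower.enc_two ℂ) S hF n

end Pool.Agent.Results.MP_83e7a5_an.SharpComparison
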